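import Pool.Agent.Q239.Evict.Main

/-!
# A graph with independence number 5 and eviction number 7

The graph is the generalized Petersen graph `GP(7,2)` (14 vertices, cubic). Its ratio
`7/5` of eviction number to independence number exceeds `4/3`.
-/

namespace Pool.Agent.Results.MP_cdfd58_co.RatioSevenFifths

open Pool.Agent.Q239.Evict

theorem result : ∃ G : SimpleGraph (Fin 14), G.indepNum = 5 ∧ evictionNumber G = 7 :=
  ⟨GP, indepNum_GP, eviction_GP⟩

end Pool.Agent.Results.MP_cdfd58_co.RatioSevenFifths
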